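import Pool.Agent.Lib.LM.Stmt
import Pool.Agent.Lib.LM.Final
import Pool.Agent.Lib.ISOC.Final

/-!
# A compact Riemannian surface with no energy minimiser from the identity to a smooth isometry
-/

open MeasureTheory Pool.Agent.Lib.LMS
open scoped ContDiff Manifold

namespace Pool.Agent.Results.MP_f62ea7_gt.ManifoldIsometry

theorem result : ∃ (M : Type) (_ : TopologicalSpace M) (_ : ChartedSpace (EuclideanHalfSpace 2) M)
    (_ : IsManifold (𝓡∂ 2) ∞ M) (_ : T2Space M) (_ : CompactSpace M) (_ : ConnectedSpace M)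
    (_ : MeasurableSpace M) (_ : BorelSpace M) (g : RMet (𝓡∂ 2) M) (μ : Measure M) (φ : M ≃ M),
    IsVol g μ ∧ IsIsom g φ ∧ ∀ s : ℝ, 2 < s → InD s μ φ ∧ (∃ γ, IsPath s μ φ γ) ∧
      ∀ γ, IsPath s μ φ γ → ∃ γ', IsPath s μ φ γ' ∧ energy g μ γ' < energy g μ γ := by
  open Pool.Agent.Lib.LM in
  obtain ⟨M, a, b, c, d, e, f, m, n, g, μ, φ, h1, h2, h3, h4⟩ := main_of st_ATL st_MAN st_VAL
    (st_MET st_VAL) (st_VOL st_VAL) (st_EN st_VAL) dict_ok path_ok Pool.Agent.Lib.ISOC.final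
  refine ⟨M, a, b, c, d, e, f, m, n, g, μ, φ, ?_, ⟨h2, h3⟩, ?_⟩
  · exact h1
  · exact h4

end Pool.Agent.Results.MP_f62ea7_gt.ManifoldIsometry
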