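import Pool.Agent.Lib.MP_f62ea7_gt.Final

/-!
# No energy minimiser in the group of area preserving `H^s` diffeomorphisms of a plane domain
-/

open Pool.Agent.Lib.MP_f62ea7_gt

namespace Pool.Agent.Results.MP_f62ea7_gt.NoMinimizer

theorem result : ∃ (M : Set ℂ) (φ : ℂ → ℂ), IsDomain M ∧ ∀ s : ℝ, 2 < s → s < 7 / 3 →
    IsDiff s M φ ∧ (∃ γ, IsCurve s M φ γ) ∧
      ∀ γ, IsCurve s M φ γ → ∃ γ', IsCurve s M φ γ' ∧ energy M γ' < energy M γ :=
  no_minimizer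

end Pool.Agent.Results.MP_f62ea7_gt.NoMinimizer
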